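import Pool.Agent.Helper15.FC.St2

set_option autoImplicit false

/-!
Module DKB: sums of divisor functions and of their squares.
-/

namespace Pool.Agent.Helper95.FC

open Pool.Agent.Helper15.FC Polynomial

private theorem cof {F : Type} [Field F] {g a : F[X]} (hg : g.Monic) (ha : a.Monic) (hd : g ∣ a) :
    ∃ c : F[X], c.Monic ∧ g * c = a := by
  obtain ⟨c, rfl⟩ := hd
  exact ⟨c, hg.of_mul_monic_left ha, rfl⟩

private theorem one_of_dvd {F : Type} [Field F] {g : F[X]} (hg : g.Monic) (hd : g ∣ 1) :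
    g = 1 :=
  hg.eq_one_of_isUnit (isUnit_of_dvd_one hd)

private theorem refine1 {F : Type} [Field F] : ∀ (k : ℕ) (a : Fin k → F[X]) (g : F[X]),
    (∀ i, (a i).Monic) → g.Monic → g ∣ ∏ i, a i →
    ∃ b c : Fin k → F[X], (∀ i, (b i).Monic) ∧ (∀ i, (c i).Monic) ∧
      (∀ i, b i * c i = a i) ∧ ∏ i, b i = g := by
  intro k
  induction k with
  | zero =>
    intro a g _ hg hd
    rw [Finset.univ_eq_empty, Finset.prod_empty] at hd
    refine ⟨fun i => i.elim0, fun i => i.elim0, fun i => i.elim0, fun i => i.elim0,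
      fun i => i.elim0, ?_⟩
    rw [Finset.univ_eq_empty, Finset.prod_empty, one_of_dvd hg hd]
  | succ k ih =>
    intro a g ha hg hd
    rw [Fin.prod_univ_succ] at hd
    obtain ⟨g1, g2, h1, h2, rfl⟩ := exists_dvd_and_dvd_of_dvd_mul hd
    have hlc : g1.leadingCoeff * g2.leadingCoeff = 1 := by
      rw [← leadingCoeff_mul]; exact hg
    have hu : g1.leadingCoeff ≠ 0 := fun h => by
      rw [h, zero_mul] at hlc
      exact zero_ne_one hlc
    have hm1 : (C g1.leadingCoeff⁻¹ * g1).Monic := by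
      unfold Monic
      rw [leadingCoeff_mul, leadingCoeff_C, inv_mul_cancel₀ hu]
    have hm2 : (C g1.leadingCoeff * g2).Monic := by
      unfold Monic
      rw [leadingCoeff_mul, leadingCoeff_C, hlc]
    have hCC : (C g1.leadingCoeff⁻¹ : F[X]) * C g1.leadingCoeff = 1 := by
      rw [← C_mul, inv_mul_cancel₀ hu, C_1]
    have hd1 : C g1.leadingCoeff⁻¹ * g1 ∣ a 0 := by
      refine Dvd.dvd.trans ⟨C g1.leadingCoeff, ?_⟩ h1
      linear_combination (-g1) * hCC
    have hd2 : C g1.leadingCoeff * g2 ∣ ∏ i : Fin k, a i.succ := by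
      refine Dvd.dvd.trans ⟨C g1.leadingCoeff⁻¹, ?_⟩ h2
      linear_combination (-g2) * hCC
    obtain ⟨c0, hc0, hc0'⟩ := cof hm1 (ha 0) hd1
    obtain ⟨b, c, hb, hc, hbc, hprod⟩ := ih (fun i => a i.succ) _ (fun i => ha _) hm2 hd2
    refine ⟨Fin.cons (C g1.leadingCoeff⁻¹ * g1) b, Fin.cons c0 c, ?_, ?_, ?_, ?_⟩
    · intro i
      refine Fin.cases ?_ (fun i => ?_) i
      · exact hm1
      · exact hb i
    · intro i
      refine Fin.cases ?_ (fun i => ?_) i
      · exact hc0
      · exact hc i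
    · intro i
      refine Fin.cases ?_ (fun i => ?_) i
      · exact hc0'
      · exact hbc i
    · rw [Fin.prod_univ_succ]
      simp only [Fin.cons_zero, Fin.cons_succ]
      rw [hprod]
      linear_combination (g1 * g2) * hCC

private theorem grid {F : Type} [Field F] (k : ℕ) : ∀ (m : ℕ) (g : Fin k → F[X])
    (h : Fin m → F[X]), (∀ i, (g i).Monic) → (∀ j, (h j).Monic) → ∏ i, g i = ∏ j, h j →
    ∃ A : Fin k → Fin m → F[X], (∀ i j, (A i j).Monic) ∧ (∀ i, ∏ j, A i j = g i) ∧
      (∀ j, ∏ i, A i j = h j) := by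
  intro m
  induction m with
  | zero =>
    intro g h hg _ he
    rw [Finset.univ_eq_empty (α := Fin 0), Finset.prod_empty] at he
    refine ⟨fun _ j => j.elim0, fun _ j => j.elim0, fun i => ?_, fun j => j.elim0⟩
    rw [Finset.univ_eq_empty (α := Fin 0), Finset.prod_empty]
    refine (one_of_dvd (hg i) ?_).symm
    rw [← he]
    exact Finset.dvd_prod_of_mem g (Finset.mem_univ i)
  | succ m ih =>
    intro g h hg hh he
    have hd : h 0 ∣ ∏ i, g i := by
      rw [he]
      exact Finset.dvd_prod_of_mem h (Finset.mem_univ 0)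
    obtain ⟨b, c, hb, hc, hbc, hprod⟩ := refine1 k g (h 0) hg (hh 0) hd
    have hc' : ∏ i, c i = ∏ j : Fin m, h j.succ := by
      have h1 : h 0 * ∏ i, c i = h 0 * ∏ j : Fin m, h j.succ := by
        rw [← Fin.prod_univ_succ, ← he, ← hprod, ← Finset.prod_mul_distrib]
        exact Finset.prod_congr rfl fun i _ => hbc i
      exact mul_left_cancel₀ (hh 0).ne_zero h1
    obtain ⟨A, hA, hA1, hA2⟩ := ih c (fun j => h j.succ) hc (fun j => hh _) hc'
    refine ⟨fun i => Fin.cons (b i) (A i), ?_, ?_, ?_⟩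
    · intro i j
      refine Fin.cases ?_ (fun j => ?_) j
      · exact hb i
      · exact hA i j
    · intro i
      rw [Fin.prod_univ_succ]
      simp only [Fin.cons_zero, Fin.cons_succ]
      rw [hA1, hbc]
    · intro j
      refine Fin.cases ?_ (fun j => ?_) j
      · exact hprod
      · exact hA2 j

private theorem finT {F : Type} [Field F] [Fintype F] (k : ℕ) {f : F[X]} (hf : f.Monic) :
    Finite {g : Fin k → F[X] // (∀ i, (g i).Monic) ∧ ∏ i, g i = f} := by
  have hmem : ∀ (g : {g : Fin k → F[X] // (∀ i, (g i).Monic) ∧ ∏ i, g i = f}) (i : Fin k),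
      g.1 i ∈ Dv f := by
    intro g i
    exact (mem_Dv hf.ne_zero).2 ⟨g.2.1 i,
      (Finset.dvd_prod_of_mem g.1 (Finset.mem_univ i)).trans (dvd_of_eq g.2.2)⟩
  refine Finite.of_injective (β := Fin k → {x // x ∈ Dv f}) (fun g i => ⟨g.1 i, hmem g i⟩) ?_
  intro g g' hgg
  refine Subtype.ext (funext fun i => ?_)
  exact congrArg Subtype.val (congrFun hgg i)

private theorem sq_le {F : Type} [Field F] [Fintype F] (k : ℕ) {f : F[X]} (hf : f.Monic) :
    dk k f ^ 2 ≤ dk (k * k) f := by
  classical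
  have hfin := finT (k * k) hf
  have key : ∀ p : {g : Fin k → F[X] // (∀ i, (g i).Monic) ∧ ∏ i, g i = f} ×
      {g : Fin k → F[X] // (∀ i, (g i).Monic) ∧ ∏ i, g i = f},
      ∃ A : Fin k → Fin k → F[X], (∀ i j, (A i j).Monic) ∧ (∀ i, ∏ j, A i j = p.1.1 i) ∧
        (∀ j, ∏ i, A i j = p.2.1 j) :=
    fun p => grid k k p.1.1 p.2.1 p.1.2.1 p.2.2.1 (p.1.2.2.trans p.2.2.2.symm)
  choose A hA1 hA2 hA3 using key
  have hprod : ∀ p, ∏ t : Fin (k * k), A p (finProdFinEquiv.symm t).1 (finProdFinEquiv.symm t).2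
      = f := by
    intro p
    rw [Equiv.prod_comp finProdFinEquiv.symm (fun ij : Fin k × Fin k => A p ij.1 ij.2),
      Fintype.prod_prod_type]
    simp only [hA2]
    exact p.1.2.2
  have h1 : Nat.card ({g : Fin k → F[X] // (∀ i, (g i).Monic) ∧ ∏ i, g i = f} ×
      {g : Fin k → F[X] // (∀ i, (g i).Monic) ∧ ∏ i, g i = f}) ≤
      Nat.card {g : Fin (k * k) → F[X] // (∀ i, (g i).Monic) ∧ ∏ i, g i = f} := by
    refine Nat.card_le_card_of_injective (fun p =>
      ⟨fun t => A p (finProdFinEquiv.symm t).1 (finProdFinEquiv.symm t).2,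
        fun t => hA1 _ _ _, hprod p⟩) ?_
    intro p p' hpp
    have hfun : ∀ i j, A p i j = A p' i j := by
      intro i j
      have := congrFun (congrArg Subtype.val hpp) (finProdFinEquiv (i, j))
      simpa using this
    refine Prod.ext (Subtype.ext (funext fun i => ?_)) (Subtype.ext (funext fun j => ?_))
    · rw [← hA2 p i, ← hA2 p' i]
      exact Finset.prod_congr rfl fun j _ => hfun i j
    · rw [← hA3 p j, ← hA3 p' j]
      exact Finset.prod_congr rfl fun i _ => hfun i j
  rw [Nat.card_prod] at h1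
  rw [sq]
  exact h1

private theorem rec1 {F : Type} [Field F] [Fintype F] (hDKR : StDKR) (hCNV : StCNV) (k n : ℕ) :
    ∑ f ∈ Mn F n, dk (k + 1) f = ∑ i ∈ Finset.range (n + 1),
      Fintype.card F ^ i * ∑ h ∈ Mn F (n - i), dk k h := by
  have h1 := hCNV F (fun _ => 1) (fun h => (dk k h : ℂ)) n
  have h2 : ∀ f ∈ Mn F n, (dk (k + 1) f : ℂ) = ∑ g ∈ Dv f, 1 * (dk k (f / g) : ℂ) := by
    intro f hf
    rw [(hDKR F).2.1 k f (mem_Mn.1 hf).1, Nat.cast_sum]
    exact Finset.sum_congr rfl fun g _ => (one_mul _).symm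
  have h3 : ((∑ f ∈ Mn F n, dk (k + 1) f : ℕ) : ℂ) = ((∑ i ∈ Finset.range (n + 1),
      Fintype.card F ^ i * ∑ h ∈ Mn F (n - i), dk k h : ℕ) : ℂ) := by
    push_cast
    rw [Finset.sum_congr rfl h2, h1]
    refine Finset.sum_congr rfl fun i _ => ?_
    rw [Finset.sum_const, card_Mn, nsmul_eq_mul]
    push_cast
    congr 1
    exact Finset.sum_congr rfl fun h _ => one_mul _
  exact_mod_cast h3

private theorem bd {F : Type} [Field F] [Fintype F] (hDKR : StDKR) (hCNV : StCNV) :
    ∀ k n : ℕ, ∑ f ∈ Mn F n, dk k f ≤ Fintype.card F ^ n * (n + 1) ^ k := by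
  intro k
  induction k with
  | zero =>
    intro n
    rw [pow_zero, mul_one]
    calc ∑ f ∈ Mn F n, dk 0 f ≤ ∑ _f ∈ Mn F n, 1 := by
          refine Finset.sum_le_sum fun f hf => ?_
          by_cases h : f = 1
          · rw [h, (hDKR F).1.1]
          · rw [(hDKR F).1.2 f (mem_Mn.1 hf).1 h]
            exact Nat.zero_le _
      _ = Fintype.card F ^ n := by rw [Finset.sum_const, card_Mn, smul_eq_mul, mul_one]
  | succ k ih =>
    intro n
    rw [rec1 hDKR hCNV]
    calc ∑ i ∈ Finset.range (n + 1), Fintype.card F ^ i * ∑ h ∈ Mn F (n - i), dk k h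
        ≤ ∑ _i ∈ Finset.range (n + 1), Fintype.card F ^ n * (n + 1) ^ k := by
          refine Finset.sum_le_sum fun i hi => ?_
          have hin : i ≤ n := by
            have := Finset.mem_range.1 hi
            omega
          calc Fintype.card F ^ i * ∑ h ∈ Mn F (n - i), dk k h
              ≤ Fintype.card F ^ i * (Fintype.card F ^ (n - i) * (n - i + 1) ^ k) :=
                Nat.mul_le_mul_left _ (ih (n - i))
            _ = Fintype.card F ^ n * (n - i + 1) ^ k := by
                rw [← mul_assoc, ← pow_add]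
                congr 2
                omega
            _ ≤ Fintype.card F ^ n * (n + 1) ^ k :=
                Nat.mul_le_mul_left _ (Nat.pow_le_pow_left (by omega) _)
      _ = Fintype.card F ^ n * (n + 1) ^ (k + 1) := by
          rw [Finset.sum_const, Finset.card_range, smul_eq_mul]
          ring

theorem hDKB (hDKR : StDKR) (hCNV : StCNV) : StDKB := by
  intro F _ _ k n
  refine ⟨?_, ?_⟩
  · have := bd (F := F) hDKR hCNV k n
    exact_mod_cast this
  · have h1 := bd (F := F) hDKR hCNV (k * k) n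
    have h2 : ∑ f ∈ Mn F n, dk k f ^ 2 ≤ Fintype.card F ^ n * (n + 1) ^ (k * k) :=
      le_trans (Finset.sum_le_sum fun f hf => sq_le k (mem_Mn.1 hf).1) h1
    exact_mod_cast h2

end Pool.Agent.Helper95.FC
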