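import Pool.Agent.Helper15.FC.St1

/-! # Project FC (MP_16cbc0_nt), module ZS: the L-series is a polynomial -/

set_option autoImplicit false

namespace Pool.Agent.Helper95.FC

open Pool.Agent.Helper15.FC Polynomial

private theorem sum_Mn {F : Type} [Field F] [Fintype F] (N e : ℕ) (H : F[X] → ℂ) :
    ∑ f ∈ Mn F (e + N), H f = ∑ g ∈ Mn F N, ∑ u ∈ Lw F e, H (X ^ e * g + u) := by
  classical
  rw [← Finset.sum_product']
  refine Finset.sum_nbij' (fun f => (f /ₘ X ^ e, f %ₘ X ^ e)) (fun p => X ^ e * p.1 + p.2)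
    ?_ ?_ ?_ ?_ ?_
  · intro f hf
    rw [mem_Mn] at hf
    rw [Finset.mem_product, mem_Mn, mem_Lw]
    have hX : (X ^ e : F[X]).Monic := monic_X_pow e
    have hdeg : (X ^ e : F[X]).degree ≤ f.degree := by
      rw [degree_X_pow, degree_eq_natDegree hf.1.ne_zero, hf.2]
      exact_mod_cast Nat.le_add_right e N
    refine ⟨⟨?_, ?_⟩, ?_⟩
    · show (f /ₘ X ^ e).leadingCoeff = 1
      rw [leadingCoeff_divByMonic_of_monic hX hdeg]
      exact hf.1
    · show (f /ₘ X ^ e).natDegree = N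
      rw [natDegree_divByMonic _ hX, hf.2, natDegree_X_pow]
      omega
    · have := degree_modByMonic_lt f hX
      rwa [degree_X_pow] at this
  · intro p hp
    rw [Finset.mem_product, mem_Mn, mem_Lw] at hp
    obtain ⟨⟨h1, h2⟩, h3⟩ := hp
    have hM : (X ^ e * p.1 : F[X]).Monic := (monic_X_pow e).mul h1
    have hd : (X ^ e * p.1 : F[X]).natDegree = e + N := by
      rw [(monic_X_pow e).natDegree_mul h1, natDegree_X_pow, h2]
    have hlt : p.2.degree < (X ^ e * p.1 : F[X]).degree := by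
      rw [degree_eq_natDegree hM.ne_zero, hd]
      refine lt_of_lt_of_le h3 ?_
      exact_mod_cast Nat.le_add_right e N
    rw [mem_Mn]
    refine ⟨hM.add_of_left hlt, ?_⟩
    rw [natDegree_add_eq_left_of_degree_lt hlt, hd]
  · intro f hf
    show X ^ e * (f /ₘ X ^ e) + f %ₘ X ^ e = f
    rw [add_comm]
    exact modByMonic_add_div f (X ^ e)
  · intro p hp
    rw [Finset.mem_product, mem_Mn, mem_Lw] at hp
    have := div_modByMonic_unique (f := X ^ e * p.1 + p.2) (g := X ^ e) p.1 p.2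
      (monic_X_pow e) ⟨by ring, by rw [degree_X_pow]; exact hp.2⟩
    show ((X ^ e * p.1 + p.2) /ₘ X ^ e, (X ^ e * p.1 + p.2) %ₘ X ^ e) = p
    rw [this.1, this.2]
  · intro f hf
    show H f = H (X ^ e * (f /ₘ X ^ e) + f %ₘ X ^ e)
    rw [add_comm, modByMonic_add_div f (X ^ e)]

private theorem rev_mk {F : Type} [Field F] [Fintype F] {N e : ℕ} {g u : F[X]}
    (hg : g ∈ Mn F N) (hu : u ∈ Lw F e) :
    AdjoinRoot.mk (X ^ (N + 1) : F[X]) (X ^ e * g + u).reverse =
      AdjoinRoot.mk (X ^ (N + 1) : F[X]) g.reverse := by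
  rw [mem_Mn] at hg
  rw [mem_Lw] at hu
  have hM : (X ^ e * g : F[X]).Monic := (monic_X_pow e).mul hg.1
  have hd : (X ^ e * g : F[X]).natDegree = e + N := by
    rw [(monic_X_pow e).natDegree_mul hg.1, natDegree_X_pow, hg.2]
  have hlt : u.degree < (X ^ e * g : F[X]).degree := by
    rw [degree_eq_natDegree hM.ne_zero, hd]
    refine lt_of_lt_of_le hu ?_
    exact_mod_cast Nat.le_add_right e N
  have hd2 : (X ^ e * g + u).natDegree = e + N := by
    rw [natDegree_add_eq_left_of_degree_lt hlt, hd]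
  rw [AdjoinRoot.mk_eq_mk, X_pow_dvd_iff]
  intro i hi
  rw [coeff_sub, coeff_reverse, coeff_reverse, hd2, hg.2, revAt_le (by omega), revAt_le (by omega),
    coeff_add, coeff_X_pow_mul', if_pos (by omega)]
  have h1 : u.coeff (e + N - i) = 0 := by
    apply coeff_eq_zero_of_degree_lt
    refine lt_of_lt_of_le hu ?_
    have : e ≤ e + N - i := by omega
    exact_mod_cast this
  rw [h1, show e + N - i - e = N - i by omega]
  ring

private theorem shift {F : Type} [Field F] [Fintype F] {r : F[X]} (hr : r.Monic) {e : ℕ}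
    (he : r.natDegree ≤ e) (χ : MulChar (AdjoinRoot r) ℂ) (c : F[X]) :
    ∑ u ∈ Lw F e, χ (AdjoinRoot.mk r (c + u)) = ∑ u ∈ Lw F e, χ (AdjoinRoot.mk r u) := by
  set c' := c %ₘ r with hc'
  have hdeg : c'.degree < (e : WithBot ℕ) := by
    have h1 := degree_modByMonic_lt c hr
    rw [degree_eq_natDegree hr.ne_zero] at h1
    exact lt_of_lt_of_le h1 (by exact_mod_cast he)
  have hmk : AdjoinRoot.mk r c = AdjoinRoot.mk r c' := by
    rw [AdjoinRoot.mk_eq_mk]
    refine ⟨c /ₘ r, ?_⟩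
    have := modByMonic_add_div c r
    linear_combination -this
  refine Finset.sum_nbij' (fun u => c' + u) (fun u => u - c') ?_ ?_ ?_ ?_ ?_
  · intro u hu
    rw [mem_Lw] at hu ⊢
    exact lt_of_le_of_lt (degree_add_le _ _) (max_lt hdeg hu)
  · intro u hu
    rw [mem_Lw] at hu ⊢
    exact lt_of_le_of_lt (degree_sub_le _ _) (max_lt hu hdeg)
  · intro u _
    show c' + u - c' = u
    ring
  · intro u _
    show c' + (u - c') = u
    ring
  · intro u _
    show χ (AdjoinRoot.mk r (c + u)) = χ (AdjoinRoot.mk r (c' + u))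
    rw [(AdjoinRoot.mk r).map_add, (AdjoinRoot.mk r).map_add, hmk]

private theorem sum_zero {F : Type} [Field F] [Fintype F] {r : F[X]} (hr : r.Monic) {e : ℕ}
    (he : r.natDegree ≤ e) (χ : MulChar (AdjoinRoot r) ℂ) (hχ : χ ≠ 1) :
    ∑ u ∈ Lw F e, χ (AdjoinRoot.mk r u) = 0 := by
  classical
  have hfin : Finite (AdjoinRoot r) := finite_AR hr
  let _ : Fintype (AdjoinRoot r) := Fintype.ofFinite _
  have h1 : ∑ x : AdjoinRoot r, ∑ u ∈ Lw F e, χ (x + AdjoinRoot.mk r u) =
      (Fintype.card (AdjoinRoot r) : ℂ) * ∑ u ∈ Lw F e, χ (AdjoinRoot.mk r u) := by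
    rw [Finset.sum_congr rfl (g := fun _ => ∑ u ∈ Lw F e, χ (AdjoinRoot.mk r u)),
      Finset.sum_const, Finset.card_univ, nsmul_eq_mul]
    intro x _
    obtain ⟨c, rfl⟩ := AdjoinRoot.mk_surjective x
    rw [← shift hr he χ c]
    exact Finset.sum_congr rfl fun u _ => by rw [(AdjoinRoot.mk r).map_add]
  have h2 : ∑ x : AdjoinRoot r, ∑ u ∈ Lw F e, χ (x + AdjoinRoot.mk r u) = 0 := by
    rw [Finset.sum_comm]
    refine Finset.sum_eq_zero fun u _ => ?_
    rw [← MulChar.sum_eq_zero_of_ne_one hχ]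
    exact Equiv.sum_comp (Equiv.addRight (AdjoinRoot.mk r u)) fun x => χ x
  rw [h1] at h2
  rcases mul_eq_zero.1 h2 with h | h
  · exfalso
    have : (Fintype.card (AdjoinRoot r) : ℂ) ≠ 0 := by
      exact_mod_cast Fintype.card_ne_zero
    exact this h
  · exact h

private theorem refl_refl {F : Type} [Field F] (N : ℕ) (w : F[X]) :
    reflect N (reflect N w) = w := by
  ext i
  rw [coeff_reflect, coeff_reflect, revAt_invol]

private theorem rev_eq {F : Type} [Field F] [Fintype F] {N : ℕ} {g : F[X]} (hg : g ∈ Mn F N) :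
    g.reverse = reflect N g := by
  rw [mem_Mn] at hg
  rw [reverse, hg.2]

private theorem rev_degree {F : Type} [Field F] [Fintype F] {N : ℕ} {g : F[X]}
    (hg : g ∈ Mn F N) : g.reverse.degree < ((N + 1 : ℕ) : WithBot ℕ) := by
  rw [degree_lt_iff_coeff_zero]
  intro j hj
  rw [mem_Mn] at hg
  rw [coeff_reverse, hg.2, revAt_eq_self_of_lt (by omega)]
  exact coeff_eq_zero_of_natDegree_lt (by rw [hg.2]; omega)

private theorem xi_zero {F : Type} [Field F] [Fintype F] {N : ℕ} (ξ : MulChar (TN F N) ℂ)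
    (h : NTx ξ) :
    ∑ g ∈ Mn F N, ξ (AdjoinRoot.mk (X ^ (N + 1) : F[X]) g.reverse) = 0 := by
  classical
  obtain ⟨v, hv0, hv1⟩ := h
  have hX : (X ^ (N + 1) : F[X]).Monic := monic_X_pow _
  let w : F[X] → F[X] := fun g => (v * g.reverse) %ₘ X ^ (N + 1)
  let φ : F[X] → F[X] := fun g => reflect N (w g)
  have hw : ∀ g, (w g).degree < ((N + 1 : ℕ) : WithBot ℕ) := by
    intro g
    have := degree_modByMonic_lt (v * g.reverse) hX
    rwa [degree_X_pow] at this
  have hwe : ∀ g, w g + X ^ (N + 1) * ((v * g.reverse) /ₘ X ^ (N + 1)) = v * g.reverse :=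
    fun g => modByMonic_add_div _ _
  have hφ : ∀ g ∈ Mn F N, φ g ∈ Mn F N := by
    intro g hg
    rw [mem_Mn] at hg ⊢
    have h0 : (w g).coeff 0 = 1 := by
      have h1 := congrArg (fun p : F[X] => p.coeff 0) (hwe g)
      simp only [coeff_add, mul_coeff_zero, coeff_zero_reverse] at h1
      rw [hv0, hg.1.leadingCoeff, coeff_X_pow, if_neg (by omega)] at h1
      linear_combination h1
    have h1 : (φ g).coeff N = 1 := by
      show (reflect N (w g)).coeff N = 1
      rw [coeff_reflect, revAt_le le_rfl, Nat.sub_self, h0]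
    have h2 : (φ g).natDegree ≤ N := by
      rw [natDegree_le_iff_coeff_eq_zero]
      intro j hj
      show (reflect N (w g)).coeff j = 0
      rw [coeff_reflect, revAt_eq_self_of_lt hj]
      have h3 := hw g
      rw [degree_lt_iff_coeff_zero] at h3
      exact h3 j hj
    refine ⟨monic_of_natDegree_le_of_coeff_eq_one N h2 h1, le_antisymm h2 ?_⟩
    exact le_natDegree_of_ne_zero (by rw [h1]; exact one_ne_zero)
  have hrev : ∀ g ∈ Mn F N, (φ g).reverse = w g := by
    intro g hg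
    rw [rev_eq (hφ g hg)]
    exact refl_refl N (w g)
  have hinj : Set.InjOn φ (Mn F N : Set F[X]) := by
    intro g hg g' hg' he
    have h1 : w g = w g' := by
      rw [← hrev g hg, ← hrev g' hg', he]
    have h2 : (X : F[X]) ^ (N + 1) ∣ v * (g.reverse - g'.reverse) := by
      refine ⟨(v * g.reverse) /ₘ X ^ (N + 1) - (v * g'.reverse) /ₘ X ^ (N + 1), ?_⟩
      have e1 := hwe g
      have e2 := hwe g'
      linear_combination -e1 + e2 + h1
    have h3 : ¬ (X : F[X]) ∣ v := by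
      rw [X_dvd_iff, hv0]
      exact one_ne_zero
    have h4 := (prime_X (R := F)).pow_dvd_of_dvd_mul_left (N + 1) h3 h2
    have h5 : g.reverse - g'.reverse = 0 := by
      apply eq_zero_of_dvd_of_degree_lt h4
      rw [degree_X_pow]
      exact lt_of_le_of_lt (degree_sub_le _ _) (max_lt (rev_degree hg) (rev_degree hg'))
    have h6 : g.reverse = g'.reverse := sub_eq_zero.1 h5
    rw [rev_eq hg, rev_eq hg'] at h6
    rw [← refl_refl N g, h6, refl_refl]
  have himg : (Mn F N).image φ = Mn F N := by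
    apply Finset.eq_of_subset_of_card_le
    · intro g hg
      obtain ⟨g', hg', rfl⟩ := Finset.mem_image.1 hg
      exact hφ g' hg'
    · rw [Finset.card_image_of_injOn hinj]
  have hmk : ∀ g ∈ Mn F N, AdjoinRoot.mk (X ^ (N + 1) : F[X]) (φ g).reverse =
      AdjoinRoot.mk (X ^ (N + 1) : F[X]) v * AdjoinRoot.mk (X ^ (N + 1) : F[X]) g.reverse := by
    intro g hg
    rw [hrev g hg, ← map_mul, AdjoinRoot.mk_eq_mk]
    refine ⟨-((v * g.reverse) /ₘ X ^ (N + 1)), ?_⟩
    linear_combination hwe g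
  set G := ∑ g ∈ Mn F N, ξ (AdjoinRoot.mk (X ^ (N + 1) : F[X]) g.reverse) with hG
  have h1 : G = ξ (AdjoinRoot.mk (X ^ (N + 1) : F[X]) v) * G := by
    calc G = ∑ g ∈ (Mn F N).image φ, ξ (AdjoinRoot.mk (X ^ (N + 1) : F[X]) g.reverse) := by
          rw [himg]
      _ = ∑ g ∈ Mn F N, ξ (AdjoinRoot.mk (X ^ (N + 1) : F[X]) (φ g).reverse) :=
          Finset.sum_image hinj
      _ = ∑ g ∈ Mn F N, ξ (AdjoinRoot.mk (X ^ (N + 1) : F[X]) v) *
            ξ (AdjoinRoot.mk (X ^ (N + 1) : F[X]) g.reverse) := by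
          refine Finset.sum_congr rfl fun g hg => ?_
          rw [hmk g hg, map_mul]
      _ = ξ (AdjoinRoot.mk (X ^ (N + 1) : F[X]) v) * G := by rw [← Finset.mul_sum]
  have h2 : (1 - ξ (AdjoinRoot.mk (X ^ (N + 1) : F[X]) v)) * G = 0 := by
    linear_combination h1
  rcases mul_eq_zero.1 h2 with h3 | h3
  · exact absurd (sub_eq_zero.1 h3).symm hv1
  · exact h3

theorem hZS : StZS := by
  intro F _ _ r N χ ξ hr hcase d hd
  obtain ⟨e, rfl⟩ : ∃ e, d = e + N := ⟨d - N, by omega⟩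
  have he : r.natDegree ≤ e := by omega
  unfold Asum
  rw [sum_Mn]
  have h1 : ∀ g ∈ Mn F N, ∑ u ∈ Lw F e, Hk r N χ ξ (X ^ e * g + u) =
      (∑ u ∈ Lw F e, χ (AdjoinRoot.mk r u)) *
        ξ (AdjoinRoot.mk (X ^ (N + 1) : F[X]) g.reverse) := by
    intro g hg
    rw [← shift hr he χ (X ^ e * g), Finset.sum_mul]
    refine Finset.sum_congr rfl fun u hu => ?_
    unfold Hk
    rw [rev_mk hg hu]
  rw [Finset.sum_congr rfl h1, ← Finset.mul_sum]
  rcases hcase with h | h
  · rw [xi_zero ξ h, mul_zero]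
  · rw [sum_zero hr he χ h, zero_mul]

end Pool.Agent.Helper95.FC
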